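import Mathlib

/-!
# Right closed repeats starting at prescribed positions

The bound `C (n + k log n)` fails for every constant `C`.
-/

set_option autoImplicit false

namespace Pool.Agent.Results.MP_b69f9e_co.Unbounded

/-! ### Definitions -/

/-- The substring `s[i..j]` (positions `0, …, n-1`) is a right closed repeat: there is `i' > i`
such that `s[i'..j'] = s[i..j]` (`j' = i' + (j - i)`), `s[i..j]` occurs at none of the positions
`i+1, …, i'-1`, and either `s` ends at `j'` or the letters following `j` and `j'` differ. -/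
def RightClosed (s : List ℕ) (i j : ℕ) : Prop :=
  i ≤ j ∧ j < s.length ∧ ∃ i' : ℕ, i < i' ∧ i' + (j - i) < s.length ∧
    (∀ t : ℕ, t ≤ j - i → s[i' + t]? = s[i + t]?) ∧
    (∀ i'' : ℕ, i < i'' → i'' < i' → ∃ t : ℕ, t ≤ j - i ∧ s[i'' + t]? ≠ s[i + t]?) ∧
    (i' + (j - i) + 1 = s.length ∨ s[j + 1]? ≠ s[i' + (j - i) + 1]?)

/-! ### Internal right closed repeats, with the length as a parameter -/

/-- the repeat of length `l` at `i` is right closed inside `s` -/
def IRC (s : List ℕ) (i l : ℕ) : Prop :=
  1 ≤ l ∧ ∃ i' : ℕ, i < i' ∧ i' + l < s.length ∧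
    (∀ t : ℕ, t < l → s[i' + t]? = s[i + t]?) ∧
    (∀ i'' : ℕ, i < i'' → i'' < i' → ∃ t : ℕ, t < l ∧ s[i'' + t]? ≠ s[i + t]?) ∧
    s[i + l]? ≠ s[i' + l]?

lemma IRC.rc {s : List ℕ} {i l : ℕ} (h : IRC s i l) : RightClosed s i (i + (l - 1)) := by
  obtain ⟨h1, i', h2, h3, h4, h5, h6⟩ := h
  rw [RightClosed, show i + (l - 1) - i = l - 1 by omega]
  refine ⟨by omega, by omega, i', h2, by omega, fun t ht => h4 t (by omega),
    fun i'' a b => ?_, Or.inr ?_⟩
  · obtain ⟨t, ht, hne⟩ := h5 i'' a b
    exact ⟨t, by omega, hne⟩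
  · rw [show i + (l - 1) + 1 = i + l by omega, show i' + (l - 1) + 1 = i' + l by omega]
    exact h6

lemma IRC.left {A B : List ℕ} {i l : ℕ} (h : IRC A i l) : IRC (A ++ B) i l := by
  obtain ⟨h1, i', h2, h3, h4, h5, h6⟩ := h
  refine ⟨h1, i', h2, by rw [List.length_append]; omega, fun t ht => ?_, fun i'' a b => ?_, ?_⟩
  · rw [List.getElem?_append_left (by omega), List.getElem?_append_left (by omega)]
    exact h4 t ht
  · obtain ⟨t, ht, hne⟩ := h5 i'' a b
    refine ⟨t, ht, ?_⟩
    rwa [List.getElem?_append_left (by omega), List.getElem?_append_left (by omega)]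
  · rwa [List.getElem?_append_left (by omega), List.getElem?_append_left (by omega)]

lemma get_right (A B : List ℕ) (i : ℕ) : (A ++ B)[A.length + i]? = B[i]? := by
  rw [List.getElem?_append_right (by omega)]
  congr 1; omega

lemma IRC.right {A B : List ℕ} {i l : ℕ} (h : IRC B i l) : IRC (A ++ B) (A.length + i) l := by
  obtain ⟨h1, i', h2, h3, h4, h5, h6⟩ := h
  refine ⟨h1, A.length + i', by omega, by rw [List.length_append]; omega,
    fun t ht => ?_, fun i'' a b => ?_, ?_⟩
  · rw [add_assoc, add_assoc, get_right, get_right]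
    exact h4 t ht
  · obtain ⟨t, ht, hne⟩ := h5 (i'' - A.length) (by omega) (by omega)
    refine ⟨t, ht, ?_⟩
    rw [show i'' + t = A.length + (i'' - A.length + t) by omega, get_right, add_assoc, get_right]
    exact hne
  · rw [add_assoc, add_assoc, get_right, get_right]
    exact h6

/-- the marked internal right closed repeats -/
noncomputable def S (s : List ℕ) (M : List Bool) : Finset (ℕ × ℕ) := by
  classical
  exact (Finset.range s.length ×ˢ Finset.range (s.length + 1)).filter
    fun p => M[p.1]? = some true ∧ IRC s p.1 p.2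

lemma mem_S {s : List ℕ} {M : List Bool} {p : ℕ × ℕ} :
    p ∈ S s M ↔ M[p.1]? = some true ∧ IRC s p.1 p.2 := by
  classical
  unfold S
  rw [Finset.mem_filter, Finset.mem_product, Finset.mem_range, Finset.mem_range]
  constructor
  · exact fun h => h.2
  · rintro ⟨h, h'⟩
    have h'' := h'
    obtain ⟨h1, i', h2, h3, -⟩ := h''
    exact ⟨⟨by omega, by omega⟩, h, h'⟩

lemma S_append {A B : List ℕ} {MA MB : List Bool} (h : MA.length = A.length) :
    (S A MA).card + (S B MB).card ≤ (S (A ++ B) (MA ++ MB)).card := by
  classical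
  have hinj : Function.Injective (fun p : ℕ × ℕ => (A.length + p.1, p.2)) := by
    rintro ⟨a, b⟩ ⟨c, d⟩ h
    simp only [Prod.mk.injEq] at h
    ext <;> simp only <;> omega
  rw [← Finset.card_image_of_injective (S B MB) hinj, ← Finset.card_union_of_disjoint]
  · apply Finset.card_le_card
    intro p hp
    rw [Finset.mem_union, Finset.mem_image] at hp
    rw [mem_S]
    rcases hp with hp | ⟨q, hq, rfl⟩
    · rw [mem_S] at hp
      refine ⟨?_, hp.2.left⟩
      obtain ⟨-, i', h2, h3, -⟩ := hp.2
      rw [List.getElem?_append_left (by omega)]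
      exact hp.1
    · rw [mem_S] at hq
      refine ⟨?_, hq.2.right⟩
      simp only
      rw [← h, List.getElem?_append_right (by omega), show MA.length + q.1 - MA.length = q.1 by omega]
      exact hq.1
  · rw [Finset.disjoint_left]
    intro p hp hp'
    rw [Finset.mem_image] at hp'
    obtain ⟨q, hq, rfl⟩ := hp'
    rw [mem_S] at hp
    obtain ⟨-, i', h2, h3, -⟩ := hp.2
    simp only at h2 h3
    omega

/-! ### The construction -/

/-- `t_1 ⋯ t_j = (b+1) (b+2) ⋯ (b+j)` -/
def ts (b j : ℕ) : List ℕ := (List.range j).map fun r => b + 1 + r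

lemma ts_length (b j : ℕ) : (ts b j).length = j := by simp [ts]

lemma ts_get {b j r : ℕ} (h : r < j) : (ts b j)[r]? = some (b + 1 + r) := by
  unfold ts; rw [List.getElem?_map, List.getElem?_range h]; rfl

lemma ts_mem {b j a : ℕ} (h : a ∈ ts b j) : b < a ∧ a ≤ b + j := by
  unfold ts at h
  rw [List.mem_map] at h
  obtain ⟨r, hr, rfl⟩ := h
  rw [List.mem_range] at hr
  omega

/-- `X t_1 ⋯ t_j` -/
def K (X : List ℕ) (b j : ℕ) : List ℕ := X ++ ts b j

/-- `K_1 ⋯ K_m` -/
def T (X : List ℕ) (b : ℕ) : ℕ → List ℕ
  | 0 => []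
  | m + 1 => T X b m ++ K X b (m + 1)

/-- `X t_1 ⋯ t_c K_1 ⋯ K_c` -/
def step (c b : ℕ) (X : List ℕ) : List ℕ := K X b c ++ T X b c

/-- marks of `K_j` -/
def MK (M : List Bool) (j : ℕ) : List Bool := M ++ List.replicate j false

/-- marks of `K_1 ⋯ K_m` -/
def MT (M : List Bool) : ℕ → List Bool
  | 0 => []
  | m + 1 => MT M m ++ MK M (m + 1)

/-- marks of `step` -/
def Mstep (c : ℕ) (M : List Bool) : List Bool :=
  (List.replicate M.length true ++ List.replicate c false) ++ MT M c

lemma T_mem {X : List ℕ} {b : ℕ} (hX : ∀ a ∈ X, a ≤ b) (m : ℕ) : ∀ a ∈ T X b m, a ≤ b + m := by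
  induction m with
  | zero => intro a ha; simp [T] at ha
  | succ m ih =>
    intro a ha
    rw [T, List.mem_append, K, List.mem_append] at ha
    rcases ha with h | h | h
    · have := ih a h; omega
    · have := hX a h; omega
    · have := ts_mem h; omega

lemma MT_length {X : List ℕ} {M : List Bool} (h : M.length = X.length) (b m : ℕ) :
    (MT M m).length = (T X b m).length := by
  induction m with
  | zero => rfl
  | succ m ih =>
    rw [MT, T, List.length_append, List.length_append, ih, MK, K, List.length_append,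
      List.length_append, h, List.length_replicate, ts_length]

lemma S_T {X : List ℕ} {M : List Bool} (h : M.length = X.length) (b m : ℕ) :
    m * (S X M).card ≤ (S (T X b m) (MT M m)).card := by
  induction m with
  | zero => simp
  | succ m ih =>
    have h1 := S_append (A := T X b m) (B := K X b (m + 1)) (MA := MT M m) (MB := MK M (m + 1))
      (MT_length h b m)
    have h2 := S_append (A := X) (B := ts b (m + 1)) (MA := M)
      (MB := List.replicate (m + 1) false) h
    rw [T, MT]
    change (S X M).card + _ ≤ (S (K X b (m + 1)) (MK M (m + 1))).card at h2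
    have h3 : (m + 1) * (S X M).card = m * (S X M).card + (S X M).card := by ring
    omega

/-- splitting `T` at the `j`-th block -/
lemma T_split (X : List ℕ) (b : ℕ) {j m : ℕ} (h : j + 1 < m + 1) :
    ∃ R, T X b (m + 1) = T X b j ++ (K X b (j + 1) ++ (X ++ R)) := by
  induction m with
  | zero => omega
  | succ m ih =>
    rcases Nat.lt_or_ge (j + 1) (m + 1) with h1 | h1
    · obtain ⟨R, hR⟩ := ih h1
      refine ⟨R ++ K X b (m + 1 + 1), ?_⟩
      rw [T, hR]
      simp only [List.append_assoc]
    · obtain rfl : j = m := by omega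
      refine ⟨ts b (j + 1 + 1), ?_⟩
      rw [T, T]
      unfold K
      simp only [List.append_assoc]

/-- abstract form of the new repeats -/
lemma new_irc {U V W : List ℕ} {x a : ℕ} {i : ℕ} (hi : i ≤ U.length)
    (hV : x ∉ V) (hmatch : ∀ r, i ≤ r → r < U.length →
      (U ++ (x :: V ++ (x :: a :: W)))[r + (1 + V.length)]? =
      (U ++ (x :: V ++ (x :: a :: W)))[r]?) (hV0 : V[0]? ≠ some a) (hVn : V ≠ []) :
    IRC (U ++ (x :: V ++ (x :: a :: W))) i (U.length - i + 1) := by
  set l := U ++ (x :: V ++ (x :: a :: W)) with hl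
  have hlen : l.length = U.length + (1 + V.length + (2 + W.length)) := by
    rw [hl]; simp; omega
  have g1 : l[U.length]? = some x := by
    have := get_right U (x :: V ++ (x :: a :: W)) 0
    rw [add_zero] at this
    rw [hl, this]; rfl
  have g2 : ∀ r, r < V.length → l[U.length + 1 + r]? = V[r]? := by
    intro r hr
    rw [hl, add_assoc, get_right, List.cons_append, show 1 + r = r + 1 by ring,
      List.getElem?_cons_succ, List.getElem?_append_left hr]
  have g3 : l[U.length + 1 + V.length]? = some x := by
    rw [hl, add_assoc, get_right, List.cons_append, show 1 + V.length = V.length + 1 by ring,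
      List.getElem?_cons_succ, List.getElem?_append_right le_rfl, Nat.sub_self]
    rfl
  have g4 : l[U.length + 1 + V.length + 1]? = some a := by
    rw [hl, show U.length + 1 + V.length + 1 = U.length + (V.length + 1 + 1) by ring, get_right,
      List.cons_append, List.getElem?_cons_succ, List.getElem?_append_right (by omega),
      Nat.add_sub_cancel_left]
    rfl
  have hVpos : 0 < V.length := List.length_pos_of_ne_nil hVn
  refine ⟨by omega, i + (1 + V.length), by omega, by omega, fun t ht => ?_,
    fun i'' h1 h2 => ?_, ?_⟩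
  · rcases Nat.lt_or_ge (i + t) U.length with h | h
    · rw [show i + (1 + V.length) + t = i + t + (1 + V.length) by ring]
      exact hmatch (i + t) (by omega) h
    · rw [show i + (1 + V.length) + t = U.length + 1 + V.length by omega,
        show i + t = U.length by omega, g1, g3]
  · refine ⟨U.length - i, by omega, ?_⟩
    rw [show i + (U.length - i) = U.length by omega, g1,
      show i'' + (U.length - i) = U.length + 1 + (i'' - i - 1) by omega,
      g2 _ (by omega)]
    intro hcon
    exact hV (List.mem_of_getElem? hcon)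
  · rw [show i + (U.length - i + 1) = U.length + 1 + 0 by omega, g2 0 hVpos,
      show i + (1 + V.length) + (U.length - i + 1) = U.length + 1 + V.length + 1 by omega, g4]
    exact hV0

/-- the new repeats at a head position -/
lemma head_irc {X : List ℕ} {b c i j : ℕ} (hX : ∀ a ∈ X, a ≤ b) (hi : i < X.length)
    (hj : j + 1 < c) : IRC (step c b X) i (X.length - i + (j + 1)) := by
  obtain ⟨c', rfl⟩ : ∃ c', c = c' + 1 := ⟨c - 1, by omega⟩
  obtain ⟨R, hR⟩ := T_split X b (j := j) (m := c') (by omega)
  obtain ⟨a, X', hX'⟩ : ∃ a X', X = a :: X' := by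
    cases X with
    | nil => simp at hi
    | cons a X' => exact ⟨a, X', rfl⟩
  -- `ts b (c'+1) = ts b j ++ (b+1+j) :: tail`
  have hts : ∀ m, j < m → ∃ tail, ts b m = ts b j ++ ((b + 1 + j) :: tail) ∧
      (∀ y ∈ tail, b + 1 + j < y) ∧ (j + 1 < m → tail[0]? = some (b + 1 + (j + 1))) ∧
      (m = j + 1 → tail = []) := by
    intro m hm
    refine ⟨(List.range (m - j - 1)).map fun r => b + 1 + (j + 1 + r), ?_, ?_, ?_, ?_⟩
    · unfold ts
      conv_lhs => rw [show m = j + (1 + (m - j - 1)) by omega, List.range_add, List.range_add]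
      simp [Function.comp_def]
      intro a _
      omega
    · intro y hy
      rw [List.mem_map] at hy
      obtain ⟨r, hr, rfl⟩ := hy
      omega
    · intro h
      rw [List.getElem?_map, List.getElem?_range (by omega)]
      rfl
    · intro h
      rw [show m - j - 1 = 0 by omega]
      rfl
  obtain ⟨t1, e1, e2, e3, -⟩ := hts (c' + 1) (by omega)
  obtain ⟨t2, f1, -, -, f4⟩ := hts (j + 1) (by omega)
  rw [f4 rfl] at f1
  have hdec : step (c' + 1) b X = (X ++ ts b j) ++
      ((b + 1 + j) :: (t1 ++ (T X b j ++ (X ++ ts b j))) ++ ((b + 1 + j) :: a :: (X' ++ R))) := by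
    unfold step
    rw [hR]
    unfold K
    rw [e1, f1]
    conv_lhs => rw [show X ++ R = a :: (X' ++ R) by rw [hX']; rfl]
    simp only [List.append_assoc, List.cons_append, List.nil_append]
  have hlen : (X ++ ts b j).length = X.length + j := by rw [List.length_append, ts_length]
  have hmain : IRC ((X ++ ts b j) ++
      ((b + 1 + j) :: (t1 ++ (T X b j ++ (X ++ ts b j))) ++ ((b + 1 + j) :: a :: (X' ++ R)))) i
      ((X ++ ts b j).length - i + 1) := by
    apply new_irc
    · rw [hlen]; omega
    · intro hmem
      rw [List.mem_append, List.mem_append, List.mem_append] at hmem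
      rcases hmem with h | h | h | h
      · have := e2 _ h; omega
      · have := T_mem hX j _ h; omega
      · have := hX _ h; omega
      · have := ts_mem h; omega
    · intro r hr hr'
      set V := t1 ++ (T X b j ++ (X ++ ts b j)) with hV
      have hVlen : V.length = t1.length + (T X b j).length + (X ++ ts b j).length := by
        rw [hV, List.length_append, List.length_append]; ring
      rw [List.getElem?_append_left hr']
      -- position `r + 1 + |V|` lies in the last `X ++ ts b j` of `V`
      rw [show r + (1 + V.length) = (X ++ ts b j).length +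
        (1 + (t1.length + ((T X b j).length + r))) by omega, get_right,
        List.cons_append, show 1 + (t1.length + ((T X b j).length + r)) =
          t1.length + ((T X b j).length + r) + 1 by ring, List.getElem?_cons_succ,
        List.getElem?_append_left (by omega), hV, get_right, get_right]
    · have h1 := e3 (by omega)
      rw [List.getElem?_append_left]
      · rw [h1]
        intro h
        have := Option.some.inj h
        have := hX a (by rw [hX']; simp)
        omega
      · by_contra hcon
        rw [List.getElem?_eq_none (by omega)] at h1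
        exact absurd h1 (by simp)
    · intro h
      have h1 := e3 (by omega)
      have h2 : t1 = [] := (List.append_eq_nil_iff.mp h).1
      rw [h2] at h1
      exact absurd h1 (by simp)
  rw [← hdec, hlen] at hmain
  rwa [show X.length - i + (j + 1) = X.length + j - i + 1 by omega]

/-- the recursive inequality -/
lemma S_step {X : List ℕ} {M : List Bool} {b c : ℕ} (hX : ∀ a ∈ X, a ≤ b)
    (hM : M.length = X.length) :
    (c + 1) * (S X M).card + (c - 1) * X.length ≤ (S (step c b X) (Mstep c M)).card := by
  classical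
  set A2 : Finset (ℕ × ℕ) := (Finset.range X.length ×ˢ Finset.range (c - 1)).image
    (fun p => (p.1, X.length - p.1 + (p.2 + 1))) with hA2
  set A3 : Finset (ℕ × ℕ) := (S (T X b c) (MT M c)).image
    (fun p : ℕ × ℕ => ((K X b c).length + p.1, p.2)) with hA3
  have hKlen : (K X b c).length = X.length + c := by rw [K, List.length_append, ts_length]
  have c2 : A2.card = X.length * (c - 1) := by
    rw [hA2, Finset.card_image_of_injOn, Finset.card_product, Finset.card_range, Finset.card_range]
    rintro ⟨a, r⟩ h1 ⟨a', r'⟩ h2 h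
    simp only [Finset.coe_product, Finset.coe_range, Set.mem_prod, Set.mem_Iio] at h1 h2
    simp only [Prod.mk.injEq] at h
    ext <;> simp only <;> omega
  have c3 : A3.card = (S (T X b c) (MT M c)).card := by
    rw [hA3]
    apply Finset.card_image_of_injective
    rintro ⟨a, b⟩ ⟨c, d⟩ h
    simp only [Prod.mk.injEq] at h
    ext <;> simp only <;> omega
  have d12 : Disjoint (S X M) A2 := by
    rw [Finset.disjoint_left]
    intro p hp hp'
    rw [hA2, Finset.mem_image] at hp'
    obtain ⟨q, hq, rfl⟩ := hp'
    rw [Finset.mem_product, Finset.mem_range, Finset.mem_range] at hq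
    rw [mem_S] at hp
    obtain ⟨-, i', h2, h3, -⟩ := hp.2
    simp only at h2 h3
    omega
  have d3 : Disjoint (S X M ∪ A2) A3 := by
    rw [Finset.disjoint_left]
    intro p hp hp'
    rw [hA3, Finset.mem_image] at hp'
    obtain ⟨q, hq, rfl⟩ := hp'
    rw [Finset.mem_union] at hp
    rcases hp with hp | hp
    · rw [mem_S] at hp
      obtain ⟨-, i', h2, h3, -⟩ := hp.2
      simp only at h2 h3
      omega
    · rw [hA2, Finset.mem_image] at hp
      obtain ⟨q', hq', he⟩ := hp
      rw [Finset.mem_product, Finset.mem_range, Finset.mem_range] at hq'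
      simp only [Prod.mk.injEq] at he
      omega
  have hsub : (S X M ∪ A2) ∪ A3 ⊆ S (step c b X) (Mstep c M) := by
    intro p hp
    rw [Finset.mem_union, Finset.mem_union] at hp
    rw [mem_S]
    have hmark : ∀ i, i < X.length → (Mstep c M)[i]? = some true := by
      intro i hi
      unfold Mstep
      rw [List.getElem?_append_left (by simp; omega), List.getElem?_append_left (by simp; omega),
        List.getElem?_replicate, if_pos (by omega)]
    rcases hp with (hp | hp) | hp
    · rw [mem_S] at hp
      have h2 : IRC (X ++ (ts b c ++ T X b c)) p.1 p.2 := hp.2.left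
      rw [← List.append_assoc] at h2
      obtain ⟨-, i', h3, h4, -⟩ := hp.2
      exact ⟨hmark _ (by omega), h2⟩
    · rw [hA2, Finset.mem_image] at hp
      obtain ⟨q, hq, rfl⟩ := hp
      rw [Finset.mem_product, Finset.mem_range, Finset.mem_range] at hq
      exact ⟨hmark _ hq.1, head_irc hX hq.1 (by omega)⟩
    · rw [hA3, Finset.mem_image] at hp
      obtain ⟨q, hq, rfl⟩ := hp
      rw [mem_S] at hq
      refine ⟨?_, hq.2.right⟩
      unfold Mstep
      simp only
      have h5 : (List.replicate M.length true ++ List.replicate c false).length =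
          (K X b c).length := by rw [List.length_append]; simp; omega
      rw [List.getElem?_append_right (by omega), h5,
        show (K X b c).length + q.1 - (K X b c).length = q.1 by omega]
      exact hq.1
  have h1 := Finset.card_le_card hsub
  rw [Finset.card_union_of_disjoint d3, Finset.card_union_of_disjoint d12, c2, c3] at h1
  have h2 := S_T (X := X) (M := M) hM b c
  have h3 : (c + 1) * (S X M).card = c * (S X M).card + (S X M).card := by ring
  have h4 : (c - 1) * X.length = X.length * (c - 1) := by ring
  omega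

/-! ### Iteration -/

/-- the words -/
def Xw (c : ℕ) : ℕ → List ℕ
  | 0 => List.replicate (c + 3) 0
  | s + 1 => step c (s * c) (Xw c s)

/-- the marks -/
def Mw (c : ℕ) : ℕ → List Bool
  | 0 => List.replicate (c + 3) false
  | s + 1 => Mstep c (Mw c s)

lemma Xw_mem (c s : ℕ) : ∀ a ∈ Xw c s, a ≤ s * c := by
  induction s with
  | zero => intro a ha; rw [Xw, List.mem_replicate] at ha; omega
  | succ s ih =>
    intro a ha
    rw [Xw, step, List.mem_append, K, List.mem_append] at ha
    have e : (s + 1) * c = s * c + c := by ring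
    rcases ha with (h | h) | h
    · have := ih a h; omega
    · have := ts_mem h; omega
    · have := T_mem ih c a h; omega

lemma Mw_length (c s : ℕ) : (Mw c s).length = (Xw c s).length := by
  induction s with
  | zero => simp [Mw, Xw]
  | succ s ih =>
    rw [Mw, Xw, Mstep, step, List.length_append, List.length_append, MT_length ih (s * c) c,
      K]
    simp only [List.length_append, List.length_replicate, ts_length, ih]

lemma T_length (X : List ℕ) (b m : ℕ) : 2 * (T X b m).length = 2 * m * X.length + m * (m + 1) := by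
  induction m with
  | zero => simp [T]
  | succ m ih =>
    rw [T, List.length_append, K, List.length_append, ts_length, mul_add, ih]; ring

lemma Xw_length (c s : ℕ) :
    2 * (Xw c s).length + (c + 3) = 3 * (c + 3) * (c + 1) ^ s := by
  induction s with
  | zero => simp [Xw]; ring
  | succ s ih =>
    have h1 := T_length (Xw c s) (s * c) c
    rw [Xw, step, List.length_append, K, List.length_append, ts_length, mul_add, h1, pow_succ,
      ← mul_assoc, ← ih]
    ring

lemma MT_count (M : List Bool) (m : ℕ) : (MT M m).count true = m * M.count true := by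
  induction m with
  | zero => simp [MT]
  | succ m ih =>
    rw [MT, List.count_append, ih, MK, List.count_append, List.count_replicate]
    simp
    ring

lemma Mw_count (c s : ℕ) : (Mw c (s + 1)).count true = (Xw c s).length + c * (Mw c s).count true := by
  rw [Mw, Mstep, List.count_append, List.count_append, MT_count, List.count_replicate,
    List.count_replicate, Mw_length]
  simp

lemma count_bound (c s : ℕ) :
    2 * (c + 1) * (Mw c s).count true ≤ 3 * (c + 3) * (s * (c + 1) ^ s) := by
  induction s with
  | zero => simp [Mw, List.count_replicate]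
  | succ s ih =>
    have h1 := Xw_length c s
    rw [Mw_count]
    have h2 : 2 * (Xw c s).length ≤ 3 * (c + 3) * (c + 1) ^ s := by omega
    have h3 : c * (Mw c s).count true ≤ (c + 1) * (Mw c s).count true :=
      Nat.mul_le_mul_right _ (by omega)
    calc 2 * (c + 1) * ((Xw c s).length + c * (Mw c s).count true)
        = (c + 1) * (2 * (Xw c s).length) + 2 * (c + 1) * (c * (Mw c s).count true) := by ring
      _ ≤ (c + 1) * (3 * (c + 3) * (c + 1) ^ s) +
          2 * (c + 1) * ((c + 1) * (Mw c s).count true) :=
          Nat.add_le_add (Nat.mul_le_mul_left _ h2) (Nat.mul_le_mul_left _ h3)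
      _ = (c + 1) * (3 * (c + 3) * (c + 1) ^ s) +
          (c + 1) * (2 * (c + 1) * (Mw c s).count true) := by ring
      _ ≤ (c + 1) * (3 * (c + 3) * (c + 1) ^ s) +
          (c + 1) * (3 * (c + 3) * (s * (c + 1) ^ s)) :=
          Nat.add_le_add le_rfl (Nat.mul_le_mul_left _ ih)
      _ = 3 * (c + 3) * ((s + 1) * (c + 1) ^ (s + 1)) := by ring

lemma S_bound (c s : ℕ) :
    s * ((c - 1) * ((c + 3) * (c + 1) ^ s)) ≤ (c + 1) * (S (Xw c s) (Mw c s)).card := by
  induction s with
  | zero => simp
  | succ s ih =>
    have h1 := S_step (X := Xw c s) (M := Mw c s) (b := s * c) (c := c) (Xw_mem c s)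
      (Mw_length c s)
    have h2 := Xw_length c s
    have h3 : (c + 3) * (c + 1) ^ s ≤ (Xw c s).length := by
      have : 1 ≤ (c + 1) ^ s := Nat.one_le_pow _ _ (by omega)
      nlinarith
    calc (s + 1) * ((c - 1) * ((c + 3) * (c + 1) ^ (s + 1)))
        = (c + 1) * (s * ((c - 1) * ((c + 3) * (c + 1) ^ s))) +
          (c + 1) * ((c - 1) * ((c + 3) * (c + 1) ^ s)) := by ring
      _ ≤ (c + 1) * ((c + 1) * (S (Xw c s) (Mw c s)).card) +
          (c + 1) * ((c - 1) * (Xw c s).length) :=
          Nat.add_le_add (Nat.mul_le_mul_left _ ih)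
            (Nat.mul_le_mul_left _ (Nat.mul_le_mul_left _ h3))
      _ = (c + 1) * ((c + 1) * (S (Xw c s) (Mw c s)).card + (c - 1) * (Xw c s).length) := by ring
      _ ≤ (c + 1) * (S (Xw c (s + 1)) (Mw c (s + 1))).card := Nat.mul_le_mul_left _ h1

lemma count_eq (M : List Bool) :
    ((Finset.range M.length).filter (fun i => M[i]? = some true)).card = M.count true := by
  induction M using List.reverseRecOn with
  | nil => simp
  | append_singleton M a ih =>
    rw [List.count_append, List.length_append, List.length_singleton, Finset.range_add_one,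
      Finset.filter_insert]
    have h1 : (M ++ [a])[M.length]? = some a := by
      rw [List.getElem?_append_right le_rfl]; simp
    have h2 : (Finset.range M.length).filter (fun i => (M ++ [a])[i]? = some true) =
        (Finset.range M.length).filter (fun i => M[i]? = some true) := by
      apply Finset.filter_congr
      intro i hi
      rw [Finset.mem_range] at hi
      rw [List.getElem?_append_left hi]
    rw [h2]
    cases a
    · rw [if_neg (by rw [h1]; simp), ih]; simp
    · rw [if_pos h1, Finset.card_insert_of_notMem (by simp), ih]; simp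

/-! ### The choice of the parameters -/

lemma exists_exp (a : ℕ) : ∃ m : ℕ, 2 ≤ m ∧ a * m ≤ 2 ^ m := by
  have h : ∀ m : ℕ, 4 ≤ m → m * m ≤ 2 ^ m := by
    intro m hm
    induction m, hm using Nat.le_induction with
    | base => norm_num
    | succ m hm ih => rw [pow_succ]; nlinarith
  refine ⟨a + 4, by omega, ?_⟩
  have := h (a + 4) (by omega)
  nlinarith

/-- **The bound fails.** For every constant `C` there are a string `s` of length `n` and a set `P`
of positions such that more than `C (n + |P| log₂ n)` right closed repeats start in `P`. -/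
theorem result (C : ℝ) : ∃ (s : List ℕ) (P : Finset ℕ), 1 ≤ s.length ∧ (∀ i ∈ P, i < s.length) ∧
    C * ((s.length : ℝ) + P.card * Real.logb 2 s.length) <
      ({p : ℕ × ℕ | p.1 ∈ P ∧ RightClosed s p.1 p.2}.ncard : ℝ) := by
  classical
  obtain ⟨L, hL⟩ := exists_nat_gt (6 * max C 1)
  have hC1 : (1 : ℝ) ≤ max C 1 := le_max_right _ _
  have hL6 : (6 : ℝ) < L := by linarith
  have hL1 : 6 < L := by exact_mod_cast hL6
  obtain ⟨m, hm2, hm⟩ := exists_exp (2 * L * (L + 2))
  obtain ⟨c, hc⟩ : ∃ c, 2 ^ m = c + 1 := ⟨2 ^ m - 1, by have := Nat.one_le_two_pow (n := m); omega⟩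
  have hq4 : 4 ≤ c + 1 := by
    rw [← hc]
    calc 4 = 2 ^ 2 := by norm_num
      _ ≤ 2 ^ m := Nat.pow_le_pow_right (by norm_num) hm2
  rw [hc] at hm
  set X := Xw c L with hX
  set M := Mw c L with hM
  have hlen := Xw_length c L
  have hcount := count_bound c L
  have hS := S_bound c L
  have hML := Mw_length c L
  rw [← hX] at hlen hS hML
  rw [← hM] at hcount hS hML
  set q := c + 1 with hq
  set N := X.length with hN
  set k := M.count true with hk
  set I := (S X M).card with hI
  have hqL : 1 ≤ q ^ L := Nat.one_le_pow _ _ (by omega)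
  -- the bounds over the naturals
  have hN1 : (q + 2) * q ^ L ≤ N := by
    have : c + 3 = q + 2 := by omega
    rw [this] at hlen
    nlinarith
  have hN2 : 2 * N ≤ 3 * ((q + 2) * q ^ L) := by
    have : c + 3 = q + 2 := by omega
    rw [this] at hlen
    nlinarith
  have hNpos : 0 < N := by nlinarith
  have hk1 : 2 * q * k ≤ 3 * L * N := by
    have : c + 3 = q + 2 := by omega
    rw [this] at hcount
    calc 2 * q * k ≤ 3 * (q + 2) * (L * q ^ L) := hcount
      _ = 3 * L * ((q + 2) * q ^ L) := by ring
      _ ≤ 3 * L * N := Nat.mul_le_mul_left _ hN1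
  have hI1 : L * N ≤ 3 * I := by
    have e1 : c + 3 = q + 2 := by omega
    rw [e1] at hS
    have e2 : q ≤ 2 * (c - 1) := by omega
    have e3 : L * (q * ((q + 2) * q ^ L)) ≤ 2 * (q * I) := by
      calc L * (q * ((q + 2) * q ^ L)) ≤ L * ((2 * (c - 1)) * ((q + 2) * q ^ L)) :=
            Nat.mul_le_mul_left _ (Nat.mul_le_mul_right _ e2)
        _ = 2 * (L * ((c - 1) * ((q + 2) * q ^ L))) := by ring
        _ ≤ 2 * (q * I) := Nat.mul_le_mul_left _ hS
    have e4 : q * (L * ((q + 2) * q ^ L)) ≤ q * (2 * I) := by
      calc q * (L * ((q + 2) * q ^ L)) = L * (q * ((q + 2) * q ^ L)) := by ring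
        _ ≤ 2 * (q * I) := e3
        _ = q * (2 * I) := by ring
    have e5 : L * ((q + 2) * q ^ L) ≤ 2 * I := Nat.le_of_mul_le_mul_left e4 (by omega)
    have e6 : L * (2 * N) ≤ L * (3 * ((q + 2) * q ^ L)) := Nat.mul_le_mul_left _ hN2
    nlinarith
  have hlog : Real.logb 2 (N : ℝ) ≤ m * (L + 2) := by
    have h1 : N ≤ 2 ^ (m * (L + 2)) := by
      rw [pow_mul, hc, pow_add]
      have h2 : 3 * (q + 2) ≤ 2 * q ^ 2 := by nlinarith
      have h3 : 2 * N ≤ 2 * (q ^ L * q ^ 2) := by
        calc 2 * N ≤ 3 * ((q + 2) * q ^ L) := hN2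
          _ = (3 * (q + 2)) * q ^ L := by ring
          _ ≤ (2 * q ^ 2) * q ^ L := Nat.mul_le_mul_right _ h2
          _ = 2 * (q ^ L * q ^ 2) := by ring
      omega
    have h2 : (N : ℝ) ≤ (2 : ℝ) ^ ((m * (L + 2) : ℕ) : ℝ) := by
      rw [Real.rpow_natCast]; exact_mod_cast h1
    have h3 := Real.logb_le_logb_of_le (b := 2) (by norm_num) (by exact_mod_cast hNpos) h2
    rw [Real.logb_rpow (by norm_num) (by norm_num)] at h3
    push_cast at h3
    exact h3
  have hlog0 : 0 ≤ Real.logb 2 (N : ℝ) :=
    Real.logb_nonneg (by norm_num) (by exact_mod_cast hNpos)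
  -- `k log N ≤ N`
  have hklog : (k : ℝ) * Real.logb 2 N ≤ N := by
    have h1 : (k : ℝ) * Real.logb 2 N ≤ k * (m * (L + 2)) :=
      mul_le_mul_of_nonneg_left hlog (Nat.cast_nonneg _)
    have h2 : k * (m * (L + 2)) ≤ N := by
      have e1 : 2 * q * (k * (m * (L + 2))) ≤ 2 * q * N := by
        calc 2 * q * (k * (m * (L + 2))) = (2 * q * k) * (m * (L + 2)) := by ring
          _ ≤ (3 * L * N) * (m * (L + 2)) := Nat.mul_le_mul_right _ hk1
          _ ≤ 2 * ((2 * L * (L + 2) * m) * N) := by
              have a1 : 2 * ((2 * L * (L + 2) * m) * N) = 4 * (L * N * (m * (L + 2))) := by ring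
              have a2 : (3 * L * N) * (m * (L + 2)) = 3 * (L * N * (m * (L + 2))) := by ring
              rw [a1, a2]
              exact Nat.mul_le_mul_right _ (by norm_num)
          _ ≤ 2 * (q * N) := Nat.mul_le_mul_left _ (Nat.mul_le_mul_right _ hm)
          _ = 2 * q * N := by ring
      exact Nat.le_of_mul_le_mul_left e1 (by omega)
    have h3 : (k : ℝ) * (m * (L + 2)) ≤ N := by exact_mod_cast h2
    linarith
  -- the set of marked positions
  set P : Finset ℕ := (Finset.range N).filter (fun i => M[i]? = some true) with hP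
  have hPcard : P.card = k := by
    rw [hk, ← count_eq, hML]
  have hfin : {p : ℕ × ℕ | p.1 ∈ P ∧ RightClosed X p.1 p.2}.Finite := by
    apply Set.Finite.subset (Finset.finite_toSet (Finset.range N ×ˢ Finset.range N))
    rintro ⟨a, b⟩ ⟨h1, h2⟩
    rw [hP, Finset.mem_filter, Finset.mem_range] at h1
    rw [Finset.mem_coe, Finset.mem_product, Finset.mem_range, Finset.mem_range]
    exact ⟨h1.1, h2.2.1⟩
  have hcardI : I ≤ {p : ℕ × ℕ | p.1 ∈ P ∧ RightClosed X p.1 p.2}.ncard := by
    have hinj : Set.InjOn (fun p : ℕ × ℕ => (p.1, p.1 + (p.2 - 1))) (S X M) := by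
      rintro ⟨a, b⟩ h1 ⟨a', b'⟩ h2 h
      rw [Finset.mem_coe, mem_S] at h1 h2
      have h3 := h1.2.1
      have h4 := h2.2.1
      simp only [Prod.mk.injEq] at h h3 h4
      ext <;> simp only <;> omega
    rw [hI, ← Finset.card_image_of_injOn hinj, ← Set.ncard_coe_finset]
    apply Set.ncard_le_ncard _ hfin
    intro p hp
    rw [Finset.mem_coe, Finset.mem_image] at hp
    obtain ⟨r, hr, rfl⟩ := hp
    rw [mem_S] at hr
    refine ⟨?_, hr.2.rc⟩
    simp only
    rw [hP, Finset.mem_filter, Finset.mem_range]
    obtain ⟨-, i', h2, h3, -⟩ := hr.2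
    exact ⟨by omega, hr.1⟩
  refine ⟨X, P, hNpos, fun i hi => ?_, ?_⟩
  · rw [hP, Finset.mem_filter, Finset.mem_range] at hi
    exact hi.1
  · rw [hPcard, ← hN]
    have hNr : (0 : ℝ) < N := by exact_mod_cast hNpos
    have hIr : (I : ℝ) ≤ ({p : ℕ × ℕ | p.1 ∈ P ∧ RightClosed X p.1 p.2}.ncard : ℝ) := by
      exact_mod_cast hcardI
    have hI1r : (L : ℝ) * N ≤ 3 * I := by exact_mod_cast hI1
    have hsum : 0 ≤ (N : ℝ) + k * Real.logb 2 N := by positivity
    calc C * ((N : ℝ) + k * Real.logb 2 N) ≤ max C 1 * ((N : ℝ) + k * Real.logb 2 N) :=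
          mul_le_mul_of_nonneg_right (le_max_left _ _) hsum
      _ ≤ max C 1 * (2 * N) := by
          apply mul_le_mul_of_nonneg_left _ (by linarith)
          linarith
      _ < I := by nlinarith
      _ ≤ _ := hIr

end Pool.Agent.Results.MP_b69f9e_co.Unbounded
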